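import Pool.Agent.BTL.Stmts2

/-!
MP_f5cbfa_nt, pointwise Berry-Tabor law for triple correlations (frozen S18989).
Squad F5S, soft half: interface `HARDStmt` and the objects of the reduction.
All definitions of `Pool.Agent.BTL` (qf, rc, qz, nr, nz, dt, KM, ball, trip, dif, wnd, NT, gd, VV, cQ)
are used.
-/

set_option autoImplicit false

open MeasureTheory Filter Topology

namespace Pool.Agent.F5S

open Pool.Agent.BTL

/-- tent -/
noncomputable def tn (u : ℝ) : ℝ := max 0 (1 - |u|)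

/-- product kernel: three values in a common tent of width `e` -/
noncomputable def kk (e : ℝ) (y : ℝ × ℝ) : ℝ :=
  ∫ s, tn ((y.1 + y.2 - s) / e) * (tn ((y.2 - s) / e) * tn (s / e))

/-- planar tent -/
noncomputable def ph (z : ℝ × ℝ) : ℝ := tn z.1 * tn z.2

/-- triples of points of the plane -/
abbrev R6 : Type := (ℝ × ℝ) × (ℝ × ℝ) × (ℝ × ℝ)

/-- triples of integer points -/
abbrev Z6 : Type := (ℤ × ℤ) × (ℤ × ℤ) × (ℤ × ℤ)

/-- the product of three planar tents of width `L` around `c`, of mass one -/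
noncomputable def pw (L : ℝ) (c x : R6) : ℝ :=
  (L ^ 6)⁻¹ * (ph (L⁻¹ • (x.1 - c.1)) * (ph (L⁻¹ • (x.2.1 - c.2.1)) * ph (L⁻¹ • (x.2.2 - c.2.2))))

/-- superposition of the cells with weight `W` -/
noncomputable def Wb (L : ℝ) (W : R6 → ℝ) (x : R6) : ℝ := ∫ c, W c * pw L c x

/-- determinant of two points of the plane -/
def dr (x y : ℝ × ℝ) : ℝ := x.1 * y.2 - x.2 * y.1

/-- all three norms at most `R` -/
def nle (R : ℝ) (x : R6) : Prop := nr x.1 ≤ R ^ 2 ∧ nr x.2.1 ≤ R ^ 2 ∧ nr x.2.2 ≤ R ^ 2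

/-- all three norms less than `R` -/
def nlt (R : ℝ) (x : R6) : Prop := nr x.1 < R ^ 2 ∧ nr x.2.1 < R ^ 2 ∧ nr x.2.2 < R ^ 2

/-- all three determinants at least `D` -/
def dge (D : ℝ) (x : R6) : Prop :=
  D ≤ |dr x.1 x.2.1| ∧ D ≤ |dr x.1 x.2.2| ∧ D ≤ |dr x.2.1 x.2.2|

/-- the centre `c` is good: norms at most `2T`, determinants at least `T²/K` -/
def good (T K : ℝ) (c : R6) : Prop := nle (2 * T) c ∧ dge (T ^ 2 / K) c

/-- `x` is within `√2 L` of `c` (all three points) -/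
def near (L : ℝ) (c x : R6) : Prop :=
  nr (x.1 - c.1) ≤ 2 * L ^ 2 ∧ nr (x.2.1 - c.2.1) ≤ 2 * L ^ 2 ∧ nr (x.2.2 - c.2.2) ≤ 2 * L ^ 2

/-- the pair of differences of a triple of real points -/
def difr (A : ℝ × ℝ × ℝ) (x : R6) : ℝ × ℝ := (qf A x.1 - qf A x.2.1, qf A x.2.1 - qf A x.2.2)

/-- real triple of an integer triple -/
def r3 (t : Z6) : R6 := (rc t.1, rc t.2.1, rc t.2.2)

/-- the weighted sum over integer triples -/
noncomputable def SW (T L e : ℝ) (W : R6 → ℝ) (p : ℝ × ℝ) (A : ℝ × ℝ × ℝ) : ℝ :=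
  ∑ t ∈ ball (4 * T) ×ˢ (ball (4 * T) ×ˢ ball (4 * T)), Wb L W (r3 t) * kk e (dif A t - p)

/-- the weighted integral over real triples -/
noncomputable def IW (L e : ℝ) (W : R6 → ℝ) (p : ℝ × ℝ) (A : ℝ × ℝ × ℝ) : ℝ :=
  ∫ x : R6, Wb L W x * kk e (difr A x - p)

/-- the estimate of the hard half, with exponents `lam` (side of the cells), `del1`
(determinants), `del` (saving) -/
def HardAt (lam del1 del : ℝ) : Prop :=
  ∀ M : ℝ, 1 ≤ M → ∀ e : ℝ, 0 < e → ∀ p : ℝ × ℝ, ∃ C : ℝ, 1 ≤ C ∧ ∀ T : ℝ, 1 ≤ T →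
    ∀ W : R6 → ℝ, Measurable W → (∀ c, 0 ≤ W c ∧ W c ≤ 1) → (∀ c, W c ≠ 0 → good T (T ^ del1) c) →
    (∀ c c', |W c - W c'| ≤ T ^ (del1 - 1) * ‖c - c'‖) →
    ∫⁻ A in KM M, ENNReal.ofReal |SW T (T ^ lam) e W p A - IW (T ^ lam) e W p A| ≤
      ENNReal.ofReal (C * T ^ (2 - del))

/-- THE HARD HALF -/
def HARDStmt : Prop := ∃ lam del1 del : ℝ, 0 < lam ∧ 0 < del1 ∧ 0 < del ∧ lam + del1 < 1 ∧
  HardAt lam del1 del

/-- clamp to `[0,1]` -/
noncomputable def cl (u : ℝ) : ℝ := max 0 (min 1 u)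

/-- Euclidean norm of a point of the plane -/
noncomputable def en (x : ℝ × ℝ) : ℝ := Real.sqrt (nr x)

/-- weight of the determinants: one if all are at least `2T²/K`, zero if one is at most `T²/K` -/
noncomputable def Wd (T K : ℝ) (c : R6) : ℝ :=
  cl (|dr c.1 c.2.1| * K / T ^ 2 - 1) * (cl (|dr c.1 c.2.2| * K / T ^ 2 - 1) *
    cl (|dr c.2.1 c.2.2| * K / T ^ 2 - 1))

/-- weight of the norms: zero if one norm is at least `R`, one if all are at most `R - T/K` -/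
noncomputable def Wn (R T K : ℝ) (c : R6) : ℝ :=
  cl ((R - en c.1) * K / T) * (cl ((R - en c.2.1) * K / T) * cl ((R - en c.2.2) * K / T))

/-- the upper choice of the weight -/
noncomputable def Wp (T L K : ℝ) (c : R6) : ℝ := Wn (T + 2 * L + T / K) T K c * Wd T K c

/-- the lower choice of the weight -/
noncomputable def Wm (T L K : ℝ) (c : R6) : ℝ := Wn (T - 2 * L) T K c * Wd T K c

/-- integral over the ball of radius `T` -/
noncomputable def BI (T e : ℝ) (p : ℝ × ℝ) (A : ℝ × ℝ × ℝ) : ℝ :=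
  ∫ x in {x : R6 | nlt T x}, kk e (difr A x - p)

/-- integral over the triples with a small determinant -/
noncomputable def BB (T κ e : ℝ) (p : ℝ × ℝ) (A : ℝ × ℝ × ℝ) : ℝ :=
  ∫ x in {x : R6 | nlt T x ∧ ¬ dge (κ * T ^ 2) x}, kk e (difr A x - p)

open Classical in
/-- number of integer triples in the window with a small determinant -/
noncomputable def NB (T K a b c d : ℝ) (A : ℝ × ℝ × ℝ) : ℝ :=
  ∑ t ∈ (trip T).filter (fun t => ¬ gd T K t.1 t.2.1 t.2.2), wnd a b c d (dif A t)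

/-- one tent around `s`, integrated over the disc -/
noncomputable def tt (T e : ℝ) (A : ℝ × ℝ × ℝ) (s : ℝ) : ℝ :=
  ∫ x in {x : ℝ × ℝ | nr x < T ^ 2}, tn ((qf A x - s) / e)

/-- `T` is large enough for the choices with `L = T^lam`, `K = T^(del1/2)` -/
def big (lam del1 T : ℝ) : Prop := 16 * T ^ lam * T ^ (del1 / 2) ≤ T ∧ 22 ≤ T ^ (del1 / 2)

open Classical in
/-- the upper choice at `T`, zero for small `T` -/
noncomputable def WP (lam del1 T : ℝ) (c : R6) : ℝ :=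
  if big lam del1 T then Wp T (T ^ lam) (T ^ (del1 / 2)) c else 0

open Classical in
/-- the lower choice at `T`, zero for small `T` -/
noncomputable def WM (lam del1 T : ℝ) (c : R6) : ℝ :=
  if big lam del1 T then Wm T (T ^ lam) (T ^ (del1 / 2)) c else 0

/-- integer point scaled -/
def sc (e : ℝ) (g : ℤ × ℤ) : ℝ × ℝ := (e * g.1, e * g.2)

end Pool.Agent.F5S
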