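import Pool.Agent.F5S.Top
import Pool.Agent.BTL.Assembly
import Pool.Agent.Helper85_BTW.Two
import Pool.Agent.Helper39_F5S.TNF
import Pool.Agent.Helper39_F5S.PWF
import Pool.Agent.Helper39_F5S.TTE
import Pool.Agent.Helper32_F5S.Kkf
import Pool.Agent.Helper86_F5S.GRD
import Pool.Agent.Helper86_F5S.ADW
import Pool.Agent.Helper10_F5S.WIN
import Pool.Agent.Helper27_F5S.WBF
import Pool.Agent.Helper65_F5S.GEO
import Pool.Agent.Helper65_F5S.ILO
import Pool.Agent.Helper65_F5S.IWL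
import Pool.Agent.Helper59_F5S.ADV
import Pool.Agent.Helper59_F5S.LOS
import Pool.Agent.Helper69_F5S.IUP
import Pool.Agent.Helper69_F5S.FAC
import Pool.Agent.Helper69_F5S.MSW
import Pool.Agent.Helper69_F5S.AEH
import Pool.Agent.Helper69_F5S.AEB
import Pool.Agent.Helper1_F5S.MNT
import Pool.Agent.Helper36_F5S.STR
import Pool.Agent.Helper36_F5S.PBD
import Pool.Agent.Helper96_F5S.BCL
import Pool.Agent.Helper9_F5S.PTW
import Pool.Agent.Helper11_F5S.SEQ
import Pool.Agent.Helper81_F5S.FIN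
import Pool.Agent.Helper90_F5S.ABS
import Pool.Agent.Helper11_F5S.BBD

/-!
MP_f5cbfa_nt, squad F5S: assembly of the soft half of S18989.
-/

set_option autoImplicit false

open MeasureTheory Filter Topology

namespace Pool.Agent.F5S.Assembly

open Pool.Agent.BTL Pool.Agent.F5S

theorem tnf : TNFStmt := Pool.Agent.F5S.H39.tnf

theorem kkf : KKFStmt := Pool.Agent.F5S.H32.kkf tnf

theorem par : PARStmt := Pool.Agent.F5S.H32.par tnf kkf

theorem grd : GRDStmt := Pool.Agent.F5S.H86.grd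

theorem win : WINStmt := Pool.Agent.F5S.H10.win kkf par grd

theorem pwf : PWFStmt := Pool.Agent.F5S.H39.pwf

theorem wbf : WBFStmt := Pool.Agent.F5S.H27.wbf pwf

theorem geo : GEOStmt := Pool.Agent.F5S.H65g.geo

theorem adv : ADVStmt := Pool.Agent.F5S.H59.adv

theorem lpw : LPWStmt := Pool.Agent.F5S.H59.lpw

theorem adw : ADWStmt := Pool.Agent.F5S.H86.adw adv lpw

theorem ups : UPSStmt := Pool.Agent.F5S.H59.ups kkf wbf geo adv

theorem los : LOSStmt := Pool.Agent.F5S.H59.los kkf wbf geo adv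

theorem iup : IUPStmt := Pool.Agent.F5S.H69.iup kkf wbf geo adv

theorem ilo : ILOStmt := Pool.Agent.F5S.H65.ilo kkf wbf geo adv

theorem fac : FACStmt := Pool.Agent.F5S.H69fac.fac tnf

theorem tte : TTEStmt :=
  Pool.Agent.F5S.H39.tte (Pool.Agent.BTL.H85.wcoar Pool.Agent.BTL.Assembly.vvFacts)

theorem abs : ABSStmt := Pool.Agent.F5S.H90.abs tnf

theorem mnt : MNTStmt :=
  Pool.Agent.F5S.H1.mnt Pool.Agent.BTL.Assembly.vvFacts Pool.Agent.BTL.Assembly.cQeq fac tte abs

theorem str : STRStmt := Pool.Agent.F5S.H36.str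

theorem pbd : PBDStmt := Pool.Agent.F5S.H36.pbd str

theorem bbd : BBDStmt := Pool.Agent.F5S.H11.bbd Pool.Agent.BTL.Assembly.areaAnn kkf pbd

theorem iwl : IWLStmt := Pool.Agent.F5S.H65w.iwl iup ilo mnt bbd

theorem bcl : BCLStmt := Pool.Agent.F5S.H96.bcl

theorem msw : MSWStmt := Pool.Agent.F5S.H69.msw kkf wbf

theorem mnb : MNBStmt := Pool.Agent.F5S.H96.mnb

theorem aeh : AEHStmt := Pool.Agent.F5S.H69.aeh bcl msw

theorem aeb : AEBStmt := Pool.Agent.F5S.H69aeb.aeb bcl mnb Pool.Agent.BTL.Assembly.badInt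

theorem ptw : PTWStmt := Pool.Agent.F5S.H9.ptw win ups los iwl

theorem seq : SEQStmt := Pool.Agent.F5S.H11.seq adw aeh aeb ptw

theorem mot : MOTStmt := Pool.Agent.F5S.H96.mot

theorem ntm : NTMStmt := Pool.Agent.F5S.H96.ntm

theorem wrr : WRRStmt := Pool.Agent.F5S.H96.wrr ntm

theorem aec : AECStmt :=
  Pool.Agent.F5S.H11.aec Pool.Agent.BTL.Assembly.cQpos seq mot ntm wrr

/-- the soft half: `HARDStmt` implies the pointwise law -/
theorem fin : FINStmt :=
  Pool.Agent.F5S.H81.fin aec Pool.Agent.BTL.Cover.main_cover Pool.Agent.BTL.Assembly.cQpos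

end Pool.Agent.F5S.Assembly
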