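import Pool.Agent.F5S.Defs

/-!
MP_f5cbfa_nt, frozen S18989, squad F5S: the statements of the soft half, with complete proofs in the
docstrings.  Each `def XStmt : Prop` is one row; it is proved from the rows in `uses` (hypotheses)
and from the finished BTL library (`Pool.Agent.BTL.*`).
-/

set_option autoImplicit false

open MeasureTheory Filter Topology

namespace Pool.Agent.F5S

open Pool.Agent.BTL

/-- Tents. Proof: `tn = max 0 (1 - |u|)`; all facts are elementary; `∫ tn = 1` over `[-1,1]`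
(`integral_comp_div` for `tn (s/e)`). Partition of unity: write `y = n0 + f`, `n0 = ⌊y⌋`, `0 ≤ f < 1`;
`tn (y - n) = 0` unless `n = n0` (value `1 - f`) or `n = n0 + 1` (value `f`). -/
def TNFStmt : Prop :=
  (∀ u, 0 ≤ tn u ∧ tn u ≤ 1) ∧ (∀ u, tn (-u) = tn u) ∧ Continuous tn ∧
  (∀ u, 1 ≤ |u| → tn u = 0) ∧ (∀ u v, |tn u - tn v| ≤ |u - v|) ∧ HasCompactSupport tn ∧
  (∀ e : ℝ, 0 < e → Integrable (fun s : ℝ => tn (s / e)) ∧ ∫ s : ℝ, tn (s / e) = e) ∧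
  (∀ (y : ℝ) (G : Finset ℤ), (∑ n ∈ G, tn (y - n) ≤ 1) ∧
    ((∀ n : ℤ, tn (y - n) ≠ 0 → n ∈ G) → ∑ n ∈ G, tn (y - n) = 1))

/-- The kernel. Proof: all factors are in `[0,1]` and `∫ tn (s/e) = e`. Continuity: the integrand is
continuous in `(y,s)` and zero for `e ≤ |s|`: dominated convergence with the bound `tn (s/e)`
(`continuous_of_dominated`). Support: if `kk e y ≠ 0` the integrand is not identically zero, take `s`
with all three factors nonzero: `|y.1 + y.2 - s| < e`, `|y.2 - s| < e`, `|s| < e`, subtract the first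
two to get `|y.1| < 2e`, add the last two to get `|y.2| < 2e`. -/
def KKFStmt : Prop := ∀ e : ℝ, 0 < e →
  (∀ y, 0 ≤ kk e y ∧ kk e y ≤ e) ∧ Continuous (kk e) ∧
  (∀ y : ℝ × ℝ, kk e y ≠ 0 → |y.1| < 2 * e ∧ |y.2| < 2 * e) ∧
  (∀ y : ℝ × ℝ, Integrable (fun s => tn ((y.1 + y.2 - s) / e) * (tn ((y.2 - s) / e) * tn (s / e))))

/-- Partition of unity. Proof: `(y - sc e g).1 + (y - sc e g).2 = y.1 + y.2 - e (g.1 + g.2)` and
`(y - sc e g).2 = y.2 - e g.2`, so the sum is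
`∫ tn (s/e) ∑_{g ∈ G} tn ((y.1+y.2-s)/e - (g.1+g.2)) tn ((y.2-s)/e - g.2) ds`. The map
`g ↦ (g.1 + g.2, g.2)` is injective; the inner sum is at most the product of the sums over the two
images, each at most `1` (TNF). Hence `≤ ∫ tn (s/e) = e`. Equality: let `G'` be the finite box
`{g : |y.2 - e g.2| ≤ 2e, |y.1 + y.2 - e (g.1+g.2)| ≤ 2e}` (finite, e.g. contained in a product of two
integer intervals). By hypothesis the sum over `G` equals the sum over `G ∪ G'` (the new terms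
vanish), and for `|s| < e` every `g` with nonzero inner term lies in `G'`, so that the inner sum over
`G ∪ G'` is the full sum, equal to `1`: enlarge to the image under the inverse of `(n1,n2) ↦
(n1-n2,n2)` of a product of two finite sets of integers. -/
def PARStmt : Prop := ∀ e : ℝ, 0 < e → ∀ (y : ℝ × ℝ) (G : Finset (ℤ × ℤ)),
  (∑ g ∈ G, kk e (y - sc e g) ≤ e) ∧
  ((∀ g : ℤ × ℤ, kk e (y - sc e g) ≠ 0 → g ∈ G) → ∑ g ∈ G, kk e (y - sc e g) = e)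

/-- Grids. Proof: `Gm = Icc ⌈(a+2e)/e⌉ ⌊(b-2e)/e⌋ ×ˢ Icc ⌈(c+2e)/e⌉ ⌊(d-2e)/e⌋`,
`Gp = Icc ⌈(a-2e)/e⌉ ⌊(b+2e)/e⌋ ×ˢ Icc ⌈(c-2e)/e⌉ ⌊(d+2e)/e⌋`, `C = 5 (b-a+d-c) + 26`.
The number of integers in `[u,v]` is at most `v - u + 1` if `u ≤ v`, and at least `v - u - 1`.
So `e² |Gp| ≤ (b-a+5e)(d-c+5e)`, and `e² |Gm| ≥ (b-a-5e)(d-c-5e)` if both factors are nonnegative;
otherwise `e ≥ (b-a)/5` or `e ≥ (d-c)/5` and `(b-a)(d-c) - C e ≤ 0`. -/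
def GRDStmt : Prop := ∀ a b c d : ℝ, a < b → c < d → ∃ C : ℝ, 1 ≤ C ∧ ∀ e : ℝ, 0 < e → e ≤ 1 →
  ∃ Gm Gp : Finset (ℤ × ℤ),
    (∀ g ∈ Gm, a + 2 * e ≤ e * g.1 ∧ e * g.1 ≤ b - 2 * e ∧ c + 2 * e ≤ e * g.2 ∧
      e * g.2 ≤ d - 2 * e) ∧
    (∀ g : ℤ × ℤ, a - 2 * e < e * g.1 → e * g.1 < b + 2 * e → c - 2 * e < e * g.2 →
      e * g.2 < d + 2 * e → g ∈ Gp) ∧
    (b - a) * (d - c) - C * e ≤ e ^ 2 * (Gm.card : ℝ) ∧
    e ^ 2 * (Gp.card : ℝ) ≤ (b - a) * (d - c) + C * e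

/-- Windows between combinations of kernels (uses KKF PAR GRD). Proof: take `C, Gm, Gp` of GRD.
Lower: if `y` is not in the window, every term with `g ∈ Gm` vanishes, since `kk e (y - sc e g) ≠ 0`
gives `|y.1 - e g.1| < 2e`, `|y.2 - e g.2| < 2e`, hence `a < y.1 < b`, `c < y.2 < d`; if `y` is in the
window use the first part of PAR. Upper: if `y` is in the window, every `g` with nonzero term is in
`Gp`, so PAR gives equality `e⁻¹ * e = 1`; otherwise `wnd = 0`. -/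
def WINStmt : Prop := ∀ a b c d : ℝ, a < b → c < d → ∃ C : ℝ, 1 ≤ C ∧ ∀ e : ℝ, 0 < e → e ≤ 1 →
  ∃ Gm Gp : Finset (ℤ × ℤ),
    (∀ y, e⁻¹ * ∑ g ∈ Gm, kk e (y - sc e g) ≤ wnd a b c d y) ∧
    (∀ y, wnd a b c d y ≤ e⁻¹ * ∑ g ∈ Gp, kk e (y - sc e g)) ∧
    (b - a) * (d - c) - C * e ≤ e ^ 2 * (Gm.card : ℝ) ∧
    e ^ 2 * (Gp.card : ℝ) ≤ (b - a) * (d - c) + C * e

/-- The product of tents (uses TNF). Proof: `pw L c x` is a product of six tents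
`tn ((x_i - c_i)/L)` divided by `L^6`; `∫ tn ((x_i - c_i)/L) dc_i = L`; Fubini
(`MeasureTheory.integral_prod_mul`, or `Integrable.prod_mul`, on the nested product). If `pw ≠ 0`, all
six `|x_i - c_i| < L`, hence `nr (x - c) ≤ 2 L²`. -/
def PWFStmt : Prop := ∀ L : ℝ, 0 < L →
  (∀ c x, 0 ≤ pw L c x) ∧ Continuous (fun z : R6 × R6 => pw L z.1 z.2) ∧
  (∀ x, Integrable (fun c => pw L c x)) ∧ (∀ x, ∫ c, pw L c x = 1) ∧
  (∀ c x, pw L c x ≠ 0 → near L c x)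

/-- Superpositions (uses PWF). Proof: measurability: `StronglyMeasurable.integral_prod_right` (or
`Measurable` of a parametric integral) for the jointly measurable function `W c * pw L c x`.
Bounds: `0 ≤ W c * pw ≤ pw`. If `W c = 1` whenever `near L c x`, the integrand equals `pw L c x`
everywhere. If `Wb L W x ≠ 0` the integrand is not identically zero. -/
def WBFStmt : Prop := ∀ (L : ℝ) (W : R6 → ℝ), 0 < L → Measurable W → (∀ c, 0 ≤ W c ∧ W c ≤ 1) →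
  Measurable (Wb L W) ∧ (∀ x, 0 ≤ Wb L W x ∧ Wb L W x ≤ 1) ∧
  (∀ x, (∀ c, near L c x → W c = 1) → Wb L W x = 1) ∧
  (∀ x, Wb L W x ≠ 0 → ∃ c, W c ≠ 0 ∧ near L c x)

/-- Geometry. Proof: write `|v| = √(nr v)` (Minkowski in the plane: `√(nr (u+v)) ≤ √(nr u) + √(nr v)`
and `|dr u v| ≤ √(nr u) √(nr v)`, because `dr² + dot² = nr u nr v`). `near` gives `|x_l - c_l| ≤ √2 L`.
`L ≤ T/(16 K) ≤ T/16`. (1) `|c_l| ≤ T + √2 L`; `dr c_i c_j = dr x_i x_j + dr (c_i - x_i) c_j +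
dr x_i (c_j - x_j)`, so `|dr c_i c_j| ≥ 3T²/K - √2 L (T + 2L) - √2 L T ≥ 3T²/K - 4 L T ≥ 2T²/K`.
(2) `|x_l| ≤ T - 2L + √2 L < T` and `|dr x_i x_j| ≥ T²/K - 4 L T > 0`. (3) as (1) with
`|c_l| ≤ T - 4L - T/K + √2 L`. (4) `|x_l| ≤ T + 2L + T/K + √2 L < T + 4 L + T/K`. -/
def GEOStmt : Prop := ∀ T L K : ℝ, 1 ≤ T → 0 < L → 22 ≤ K → 16 * L * K ≤ T →
  ∀ c x : R6, near L c x →
    (nlt T x → dge (3 * T ^ 2 / K) x → nle (T + 2 * L) c ∧ dge (2 * T ^ 2 / K) c) ∧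
    (nle (T - 2 * L) c → dge (T ^ 2 / K) c → nlt T x ∧ 0 < |dr x.1 x.2.1| ∧
      0 < |dr x.1 x.2.2| ∧ 0 < |dr x.2.1 x.2.2|) ∧
    (nle (T - 4 * L - T / K) x → dge (3 * T ^ 2 / K) x →
      nle (T - 2 * L - T / K) c ∧ dge (2 * T ^ 2 / K) c) ∧
    (nle (T + 2 * L + T / K) c → nlt (T + 4 * L + T / K) x)

/-- Values of the two weights. Proof: `cl u = 1` iff `1 ≤ u`, `cl u = 0` iff `u ≤ 0`, `0 ≤ cl ≤ 1`;
all the functions are continuous. `Wp c ≠ 0` gives `en c_l < T + 2L + T/K ≤ 2T` and `|dr| > T²/K ≥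
T²/K²`; `Wm c ≠ 0` gives `en c_l < T - 2L`. `en c ≤ R` with `0 ≤ R` iff `nr c ≤ R²`
(`Real.sqrt_le_left`, `Real.sqrt_le_sqrt`). -/
def ADVStmt : Prop := ∀ T L K : ℝ, 1 ≤ T → 0 < L → 22 ≤ K → 16 * L * K ≤ T →
  (Continuous (Wp T L K) ∧ Continuous (Wm T L K)) ∧
  (∀ c, 0 ≤ Wp T L K c ∧ Wp T L K c ≤ 1) ∧ (∀ c, 0 ≤ Wm T L K c ∧ Wm T L K c ≤ 1) ∧
  (∀ c, Wp T L K c ≠ 0 → good T (K ^ 2) c ∧ nle (T + 2 * L + T / K) c) ∧
  (∀ c, Wm T L K c ≠ 0 → good T (K ^ 2) c ∧ nle (T - 2 * L) c ∧ dge (T ^ 2 / K) c) ∧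
  (∀ c, nle (T + 2 * L) c → dge (2 * T ^ 2 / K) c → Wp T L K c = 1) ∧
  (∀ c, nle (T - 2 * L - T / K) c → dge (2 * T ^ 2 / K) c → Wm T L K c = 1)

/-- Lipschitz bound for the two weights. Proof: `cl` is 1-Lipschitz; `|en x - en y| ≤ √(nr (x-y)) ≤
√2 ‖x - y‖`; so `Wn` (product of three functions in `[0,1]`) has constant `3 √2 K/T`. If
`en c_l, en c'_l ≤ 2T` for all `l`, then `||dr c_i c_j| - |dr c'_i c'_j|| ≤ en (c_i - c'_i) en c_j +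
en c'_i en (c_j - c'_j) ≤ 4 √2 T ‖c - c'‖`, so `|Wd c - Wd c'| ≤ 12 √2 (K/T) ‖c - c'‖`. Product: if
`Wn c = 0` or `Wn c' = 0` the difference of the products is at most `|Wn c - Wn c'|`; otherwise all
norms are `≤ 2T` and the difference is at most `|Wn c - Wn c'| + |Wd c - Wd c'| ≤
15 √2 (K/T) ‖c - c'‖ ≤ (K²/T) ‖c - c'‖`, since `15 √2 < 22 ≤ K`. -/
def LPWStmt : Prop := ∀ T L K : ℝ, 1 ≤ T → 0 < L → 22 ≤ K → 16 * L * K ≤ T →
  (∀ c c', |Wp T L K c - Wp T L K c'| ≤ K ^ 2 / T * ‖c - c'‖) ∧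
  (∀ c c', |Wm T L K c - Wm T L K c'| ≤ K ^ 2 / T * ‖c - c'‖)

/-- The weights `WP`, `WM` at `T` satisfy the conditions of `HardAt` (uses ADV LPW). Proof: with
`K = T^(del1/2)`: `K² = T^del1`, `K²/T = T^(del1-1)`; if not `big`, the weight is zero. -/
def ADWStmt : Prop := ∀ lam del1 T : ℝ, 0 < lam → 0 < del1 → 1 ≤ T →
  (Measurable (WP lam del1 T) ∧ (∀ c, 0 ≤ WP lam del1 T c ∧ WP lam del1 T c ≤ 1) ∧
    (∀ c, WP lam del1 T c ≠ 0 → good T (T ^ del1) c) ∧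
    (∀ c c', |WP lam del1 T c - WP lam del1 T c'| ≤ T ^ (del1 - 1) * ‖c - c'‖)) ∧
  (Measurable (WM lam del1 T) ∧ (∀ c, 0 ≤ WM lam del1 T c ∧ WM lam del1 T c ≤ 1) ∧
    (∀ c, WM lam del1 T c ≠ 0 → good T (T ^ del1) c) ∧
    (∀ c c', |WM lam del1 T c - WM lam del1 T c'| ≤ T ^ (del1 - 1) * ‖c - c'‖))

/-- Upper sandwich (uses KKF WBF GEO ADV). Proof: split `trip T` by `gd T (K/3)`. If `t ∈ trip T`
and `gd T (K/3)`, then `x = r3 t` has `nlt T x` and `dge (3T²/K) x` (`dr (rc x) (rc y) = dt x y`,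
`T²/(K/3) = 3T²/K`), so by GEO (1) and ADV `Wp c = 1` for all `c` near `x`, `Wb = 1` (WBF) and
`wnd (dif A t) ≤ e⁻¹ ∑_g Wb (r3 t) * kk e (dif A t - sc e g)`. `trip T` is contained in
`ball (4T) ×ˢ (ball (4T) ×ˢ ball (4T))` and all the terms are nonnegative; exchange the sums. -/
def UPSStmt : Prop := ∀ T L K : ℝ, 1 ≤ T → 0 < L → 22 ≤ K → 16 * L * K ≤ T → ∀ e : ℝ, 0 < e →
  ∀ (a b c d : ℝ) (G : Finset (ℤ × ℤ)), (∀ y, wnd a b c d y ≤ e⁻¹ * ∑ g ∈ G, kk e (y - sc e g)) →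
  ∀ A : ℝ × ℝ × ℝ, NT T a b c d A ≤
    e⁻¹ * ∑ g ∈ G, SW T L e (Wp T L K) (sc e g) A + NB T (K / 3) a b c d A

/-- Lower sandwich (uses KKF WBF GEO ADV). Proof: exchange the sums. If `Wb (r3 t) ≠ 0` then some
`c` near `r3 t` has `Wm c ≠ 0`, so GEO (2) gives `nlt T (r3 t)` and all three `dt ≠ 0`, hence
`t ∈ trip T` (`dt x y ≠ 0` implies `x ≠ y` and `x ≠ -y`). For `t ∈ trip T`, `Wb ≤ 1` and
`e⁻¹ ∑_g kk ≤ wnd`; the other terms are zero; `e⁻¹ ∑ kk ≥ 0`. -/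
def LOSStmt : Prop := ∀ T L K : ℝ, 1 ≤ T → 0 < L → 22 ≤ K → 16 * L * K ≤ T → ∀ e : ℝ, 0 < e →
  ∀ (a b c d : ℝ) (G : Finset (ℤ × ℤ)), (∀ y, e⁻¹ * ∑ g ∈ G, kk e (y - sc e g) ≤ wnd a b c d y) →
  ∀ A : ℝ × ℝ × ℝ, e⁻¹ * ∑ g ∈ G, SW T L e (Wm T L K) (sc e g) A ≤ NT T a b c d A

/-- Upper main term (uses KKF WBF GEO ADV). Proof: `Wb ≤ 1`, and `Wb x ≠ 0` implies
`nlt (T + 4L + T/K) x` by ADV and GEO (4). The set `{nlt R}` is open, bounded, of finite volume, and `kk e` is bounded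
and continuous, so everything is integrable; compare the integrands (`integral_indicator`). -/
def IUPStmt : Prop := ∀ T L K : ℝ, 1 ≤ T → 0 < L → 22 ≤ K → 16 * L * K ≤ T → ∀ e : ℝ, 0 < e →
  ∀ (p : ℝ × ℝ) (A : ℝ × ℝ × ℝ), IW L e (Wp T L K) p A ≤ BI (T + 4 * L + T / K) e p A

/-- Lower main term (uses KKF WBF GEO ADV). Proof: with `R = T - 4L - T/K` (`0 ≤ R ≤ T`), pointwise
`1[nlt R x] - 1[nlt T x, ¬ dge (3/K T²) x] ≤ Wb L Wm x`: if `nlt R x` and `dge (3T²/K) x`, GEO (3)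
and ADV give `Wm c = 1` for all `c` near `x` and `Wb = 1`; if `nlt R x` and not `dge`, the left side
is `1 - 1 = 0`. Multiply by `kk ≥ 0` and integrate. -/
def ILOStmt : Prop := ∀ T L K : ℝ, 1 ≤ T → 0 < L → 22 ≤ K → 16 * L * K ≤ T → ∀ e : ℝ, 0 < e →
  ∀ (p : ℝ × ℝ) (A : ℝ × ℝ × ℝ),
    BI (T - 4 * L - T / K) e p A - BB T (3 / K) e p A ≤ IW L e (Wm T L K) p A

/-- Factorisation (uses TNF). Proof: for every `x`, by translation `s ↦ s + qf A x.2.2` and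
evenness of `tn`, `kk e (difr A x - p) = ∫ s, tn ((qf A x.1 - (s+p.1+p.2))/e) *
(tn ((qf A x.2.1 - (s+p.2))/e) * tn ((qf A x.2.2 - s)/e))`. The integrand is bounded, continuous,
and on `{nlt T x}` zero for `s` outside a bounded interval (`|qf A y| ≤ 4 ‖A‖ T²` for `nr y < T²`),
so Fubini applies (`integral_integral_swap`); for fixed `s` the integral over
`{nlt T} = D × D × D`, `D = {nr < T²}`, of the product is the product (`setIntegral_prod_mul`). -/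
def FACStmt : Prop := ∀ (T e : ℝ), 0 < T → 0 < e → ∀ (p : ℝ × ℝ) (A : ℝ × ℝ × ℝ),
  BI T e p A = ∫ s, tt T e A (s + (p.1 + p.2)) * (tt T e A (s + p.2) * tt T e A s)

/-- One tent (uses BTL: `Assembly2` has the coarea formula `Pool.Agent.BTL.H85.wcoar vvFacts : W_coarea`).
Take `W_coarea` as a hypothesis. Proof: scaling `x = T y` (`Measure.setIntegral_comp_smul` or
`integral_comp_smul`, dimension 2): `∫_{nr x < T²} φ (qf A x) dx = T² ∫_{nr y < 1} φ (T² qf A y) dy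
= T² ∫ φ (T² v) deriv (VV A) v dv` (coarea) `= ∫ φ v' deriv (VV A) (v'/T²) dv'`, with
`φ v = tn ((v - s)/e)`; substitute `v' = s + u`. -/
def TTEStmt : Prop := ∀ (M : ℝ), 1 ≤ M → ∀ A ∈ KM M, ∀ T e s : ℝ, 0 < T → 0 < e →
  tt T e A s = ∫ u, tn (u / e) * deriv (VV A) ((s + u) / T ^ 2)

/-- Abstract limit (uses TNF). Proof: for a bounded integrable `ρ` put
`g_q,δ (s) = ∫ u, tn (u/e) ρ (s + (q+u) δ)`. Then `|g| ≤ e B`, and
`∫ |g_q,δ - e ρ| ≤ ∫ u, tn (u/e) ‖ρ(· + (q+u)δ) - ρ‖₁ → 0` as `δ → 0` by continuity of translations in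
`L¹`, dominated by `2 ‖ρ‖₁ tn (u/e)`. [Continuity of translations: approximate `ρ` in `L¹` by a
continuous function with compact support, `Integrable.exists_hasCompactSupport_integral_sub_le`; or
Lebesgue differentiation.] Finally `|g1 g2 g3 - (eρ)³| ≤ (e B)² (|g1 - eρ| + |g2 - eρ| + |g3 - eρ|)`. -/
def ABSStmt : Prop := ∀ (ρ : ℝ → ℝ), Measurable ρ → (∀ s, 0 ≤ ρ s) → ∀ B : ℝ, (∀ s, ρ s ≤ B) →
  Integrable ρ → ∀ e q1 q2 q3 : ℝ, 0 < e →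
  Tendsto (fun δ : ℝ => ∫ s, (∫ u, tn (u / e) * ρ (s + (q1 + u) * δ)) *
    ((∫ u, tn (u / e) * ρ (s + (q2 + u) * δ)) * (∫ u, tn (u / e) * ρ (s + (q3 + u) * δ))))
    (𝓝[>] 0) (𝓝 (e ^ 3 * ∫ s, ρ s ^ 3))

/-- Main term (uses FAC TTE ABS). Proof: FAC, then `s = T² s'`:
`BI T e p A / T² = ∫ s', tt (T² s' + q1) tt (T² s' + q2) tt (T² s' + q3)`, with
`q = (p.1+p.2, p.2, 0)`, and `tt T e A (T² s' + q) = ∫ u, tn (u/e) ρ (s' + (q+u)/T²)`,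
`ρ = deriv (VV A)` (TTE). ABS with `δ = 1/T²`. `ρ` is measurable (`measurable_deriv`), `0 ≤ ρ ≤ 4M`
(`Pool.Agent.BTL.Assembly.vvFacts`: monotone and Lipschitz), integrable (bounded, zero outside
`[0, M]`: `VV` is constant on `s < 0` and on `s > M`), and `∫ ρ³ = cQ A` (`Assembly.cQeq`). -/
def MNTStmt : Prop := ∀ (M : ℝ), 1 ≤ M → ∀ A ∈ KM M, ∀ (e : ℝ) (p : ℝ × ℝ), 0 < e →
  Tendsto (fun T : ℝ => BI T e p A / T ^ 2) atTop (𝓝 (e ^ 3 * cQ A))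

/-- A strip in an annulus. Proof: `C = 8 M³` will do. Let `P = qf A x ≥ nr x / M` (so `P > 0`),
`x' = (-x.2, x.1)`, `y = α x + β x'` (linear map of determinant `nr x`), `dr x y = β nr x`,
`P * qf A y = (P α + Q β)² + disc A (nr x)² β²` with `Q` the polar form at `(x, x')`. On the set,
`disc A (nr x)² β² ≤ M² w² ≤ a P / 2`, so with `V = aP - disc A (nr x)² β² ≥ aP/2 > 0`,
`(P α + Q β)² ∈ [V, V + hP]`: two intervals of total length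
`2 (√(V+hP) - √V) ≤ hP/√V ≤ h √(2P/a)`. Length in `α`: `≤ h √(2/(aP)) ≤ h √(2M/(a nr x))`. Length in
`β`: `2 w / nr x`. Area: `nr x` times the product, `2 √(2M) h w / √(a nr x)`. (Instead of the
linear map one may rotate or shear.) -/
def STRStmt : Prop := ∀ M : ℝ, 1 ≤ M → ∃ C : ℝ, 1 ≤ C ∧ ∀ A ∈ KM M, ∀ (x : ℝ × ℝ) (a h w : ℝ),
  0 ≤ h → 0 < a → 0 ≤ w → 0 < nr x → C * w ^ 2 ≤ a * nr x →
  volume {y : ℝ × ℝ | a ≤ qf A y ∧ qf A y ≤ a + h ∧ |dr x y| ≤ w} ≤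
    ENNReal.ofReal (C * h * w / Real.sqrt (a * nr x))

/-- Pairs with a small determinant (uses STR). Proof: for `y0 = x` fixed, the second point lies in
the annulus `qf A x - g - h ≤ qf A y ≤ qf A x - g + h`, area `≤ 8 M h` (`Assembly.areaAnn`). If
`nr x ≤ r0² := max (√κ T²) C0`: total `≤ 4 r0² · 8 M h ≤ C (√κ T² + 1)`. If `nr x > r0²` then
`a = qf A x - g - h ≥ nr x / M - g0 - h ≥ nr x / (2M)` (choose `C0 = 2M (g0+h) + 1`), and with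
`w = κ T²`: `C_str w² ≤ a nr x` as soon as `2 M C_str κ² T⁴ ≤ (nr x)²`, true if `nr x ≥ √κ T² ·
√(2 M C_str)`: take `r0² = max (√κ T² √(2 M C_str)) C0` (`κ ≤ √κ` for `κ ≤ 1`). Then the area is at most
`C_str 2h κT² √(2M) / nr x ≤ C' κ T² / (√κ T²) = C' √κ`, total `≤ 4 T² C' √κ`. Write the volume of
the set of pairs as an iterated integral (`Measure.prod_apply`). -/
def PBDStmt : Prop := ∀ M h g0 : ℝ, 1 ≤ M → 0 < h → 0 ≤ g0 → ∃ C : ℝ, 1 ≤ C ∧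
  ∀ A ∈ KM M, ∀ (T κ g : ℝ), 1 ≤ T → 0 < κ → κ ≤ 1 → |g| ≤ g0 →
  volume {z : (ℝ × ℝ) × (ℝ × ℝ) | nr z.1 < T ^ 2 ∧ nr z.2 < T ^ 2 ∧ |dr z.1 z.2| ≤ κ * T ^ 2 ∧
    |qf A z.1 - qf A z.2 - g| ≤ h} ≤ ENNReal.ofReal (C * (T ^ 2 * Real.sqrt κ + 1))

/-- Triples with a small determinant (uses KKF PBD). Proof: `kk e ≤ e`, and `kk e (difr A x - p) ≠ 0`
implies `|qf A x.1 - qf A x.2.1 - p.1| < 2e`, `|qf A x.2.1 - qf A x.2.2 - p.2| < 2e`, hence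
`|qf A x.1 - qf A x.2.2 - p.1 - p.2| < 4e`. `¬ dge` means that one of the three determinants is
`< κ T²`. For the pair (1,2): integrate the third point first, it lies in an annulus
`|qf A x.2.2 - (qf A x.2.1 - p.2)| ≤ 2e`, area `≤ 16 M e` (`Assembly.areaAnn`), and PBD with `h = 2e`
for the pair. For (2,3): integrate `x.1` first. For (1,3): integrate `x.2.1` first, PBD with
`h = 4e`, `g = p.1 + p.2`. Total `≤ e · 16 M e · 3 C_PBD (T² √κ + 1)`. (The integral of a nonnegative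
function bounded by `e`, supported in a set of finite volume `v`, is at most `e v`.) -/
def BBDStmt : Prop := ∀ (M e : ℝ) (p : ℝ × ℝ), 1 ≤ M → 0 < e → ∃ C : ℝ, 1 ≤ C ∧
  ∀ A ∈ KM M, ∀ T κ : ℝ, 1 ≤ T → 0 < κ → κ ≤ 1 →
  0 ≤ BB T κ e p A ∧ BB T κ e p A ≤ C * (T ^ 2 * Real.sqrt κ + 1)

/-- Limits of the weighted integrals (uses IUP ILO MNT BBD). Proof: `L = T^lam`, `K = T^(del1/2)`,
`16 L K ≤ T` and `22 ≤ K` for large `T` (so `big` holds eventually), `L/T → 0`, `1/K → 0`. IUP: `IW ≤ BI R`,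
`R = T + 4L + T/K`, and `BI R/T² = (BI R/R²) (R/T)² → e³ cQ`. ILO: `IW ≥ BI R' - BB T (3/K)`,
`R' = T - 4L - T/K`, and `BB T (3/K)/T² ≤ C (√(3/K) + 1/T²) → 0`. -/
def IWLStmt : Prop := ∀ (M : ℝ), 1 ≤ M → ∀ A ∈ KM M, ∀ lam del1 : ℝ, 0 < lam → 0 < del1 →
  lam + del1 < 1 → ∀ (e : ℝ) (p : ℝ × ℝ), 0 < e → ∀ ε : ℝ, 0 < ε → ∀ᶠ T : ℝ in atTop,
    big lam del1 T ∧
    IW (T ^ lam) e (Wp T (T ^ lam) (T ^ (del1 / 2))) p A / T ^ 2 ≤ e ^ 3 * cQ A + ε ∧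
    e ^ 3 * cQ A - ε ≤ IW (T ^ lam) e (Wm T (T ^ lam) (T ^ (del1 / 2))) p A / T ^ 2

/-- Borel-Cantelli. Proof: `∑_k ∫⁻ |X_k| < ∞` (finitely many terms `k < k0` are dropped: apply to
`X (k + k0)`), so by `lintegral_tsum` `∑_k ofReal |X_{k+k0}| < ∞` a.e. (`ae_lt_top'`), hence the terms
tend to zero (`ENNReal.tendsto_atTop_zero_of_tsum_ne_top`). -/
def BCLStmt : Prop := ∀ (Ω : Type) [MeasurableSpace Ω] (μ : Measure Ω) (X : ℕ → Ω → ℝ)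
  (_ : ∀ k, AEMeasurable (X k) μ) (r C : ℝ) (_ : 0 < r) (_ : r < 1) (k0 : ℕ)
  (_ : ∀ k, k0 ≤ k → ∫⁻ ω, ENNReal.ofReal |X k ω| ∂μ ≤ ENNReal.ofReal (C * r ^ k)),
  ∀ᵐ ω ∂μ, Tendsto (fun k => X k ω) atTop (𝓝 0)

/-- Measurability (uses KKF WBF). Proof: `SW` is a finite sum of a constant times
`kk e (dif A t - p)`, continuous in `A`. `IW`: the integrand is jointly measurable in `(A, x)`
(`StronglyMeasurable.integral_prod_right`). -/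
def MSWStmt : Prop := ∀ (T L e : ℝ) (W : R6 → ℝ) (p : ℝ × ℝ), 0 < L → 0 < e → Measurable W →
  (∀ c, 0 ≤ W c ∧ W c ≤ 1) → Measurable (SW T L e W p) ∧ Measurable (IW L e W p)

/-- Measurability of the number of bad triples in the window. Proof: a finite sum of indicators of
open sets of `A`. -/
def MNBStmt : Prop := ∀ T K a b c d : ℝ, Measurable (NB T K a b c d)

/-- The hard estimate along a geometric sequence (uses BCL MSW). Proof: `T_k = (1+η)^k ≥ 1`,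
`∫⁻_{KM M} |SW - IW|/T_k² ≤ C T_k^(-del) = C ((1+η)^(-del))^k`; BCL with `r = (1+η)^(-del) < 1`. -/
def AEHStmt : Prop := ∀ lam del1 del : ℝ, 0 < del → HardAt lam del1 del → ∀ M : ℝ, 1 ≤ M →
  ∀ (e : ℝ) (p : ℝ × ℝ), 0 < e → ∀ η : ℝ, 0 < η → ∀ W : ℕ → R6 → ℝ, (∀ k, Measurable (W k)) →
  (∀ k c, 0 ≤ W k c ∧ W k c ≤ 1) →
  (∀ k c, W k c ≠ 0 → good ((1 + η) ^ k) (((1 + η) ^ k) ^ del1) c) →
  (∀ k c c', |W k c - W k c'| ≤ ((1 + η) ^ k) ^ (del1 - 1) * ‖c - c'‖) →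
  ∀ᵐ A ∂(volume.restrict (KM M)), Tendsto (fun k : ℕ =>
    (SW ((1 + η) ^ k) (((1 + η) ^ k) ^ lam) e (W k) p A - IW (((1 + η) ^ k) ^ lam) e (W k) p A) /
      ((1 + η) ^ k) ^ 2) atTop (𝓝 0)

/-- Bad triples along a geometric sequence (uses BCL MNB; `Pool.Agent.BTL.Assembly.badInt : S_bad_int`, take
`S_bad_int` as a hypothesis). Proof: `T = (1+η)^k`, `h = T^(1/4) ≥ 1`, `K = T^(del1/2)/3 ≥ 1` for large
`k`, `L = max 1 |a| |b| |c| |d|`: `∫⁻_{KM M} NB/T² ≤ C ((T^(del1/2)/3)^(-1/4) + T^(-1/4)) ≤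
3 C T^(-(min del1 1)/8)`, so BCL with `r = (1+η)^(-(min del1 1)/8)`. `NB ≥ 0`. -/
def AEBStmt : Prop := ∀ (M a b c d η del1 : ℝ), 1 ≤ M → 0 < η → 0 < del1 →
  ∀ᵐ A ∂(volume.restrict (KM M)), Tendsto (fun k : ℕ =>
    NB ((1 + η) ^ k) (((1 + η) ^ k) ^ (del1 / 2) / 3) a b c d A / ((1 + η) ^ k) ^ 2) atTop (𝓝 0)

/-- One form (uses WIN UPS LOS IWL; `Assembly.cQpos`). Proof: let `T_k = (1+η)^k → ∞`, `L = T^lam`,
`K = T^(del1/2)`; for large `k` `big` holds (IWL), so `WP = Wp`, `WM = Wm`. Let `C` be the constant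
of WIN. Given `ε > 0` choose `j` with `e = 1/(j+1)`, `C e cQ A ≤ ε`. UPS divided by `T_k²`:
`NT/T² ≤ e⁻¹ ∑_{g ∈ Gp} (SW - IW)/T² + e⁻¹ ∑_{g ∈ Gp} IW/T² + NB/T²`; the first and third tend to
zero, the second is eventually at most `e⁻¹ |Gp| (e³ cQ A + ε')`, with `e⁻¹ |Gp| ε' ≤ ε`, hence at most
`((b-a)(d-c) + C e) cQ A + ε`. Similarly from below with LOS. -/
def PTWStmt : Prop := ∀ (M : ℝ), 1 ≤ M → ∀ A ∈ KM M, ∀ lam del1 η : ℝ, 0 < lam → 0 < del1 →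
  lam + del1 < 1 → 0 < η → ∀ a b c d : ℝ, a < b → c < d →
  (∀ (j : ℕ) (g : ℤ × ℤ), Tendsto (fun k : ℕ =>
    (SW ((1 + η) ^ k) (((1 + η) ^ k) ^ lam) (1 / (j + 1)) (WP lam del1 ((1 + η) ^ k))
        (sc (1 / (j + 1)) g) A -
      IW (((1 + η) ^ k) ^ lam) (1 / (j + 1)) (WP lam del1 ((1 + η) ^ k)) (sc (1 / (j + 1)) g) A) /
      ((1 + η) ^ k) ^ 2) atTop (𝓝 0)) →
  (∀ (j : ℕ) (g : ℤ × ℤ), Tendsto (fun k : ℕ =>
    (SW ((1 + η) ^ k) (((1 + η) ^ k) ^ lam) (1 / (j + 1)) (WM lam del1 ((1 + η) ^ k))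
        (sc (1 / (j + 1)) g) A -
      IW (((1 + η) ^ k) ^ lam) (1 / (j + 1)) (WM lam del1 ((1 + η) ^ k)) (sc (1 / (j + 1)) g) A) /
      ((1 + η) ^ k) ^ 2) atTop (𝓝 0)) →
  Tendsto (fun k : ℕ => NB ((1 + η) ^ k) (((1 + η) ^ k) ^ (del1 / 2) / 3) a b c d A / ((1 + η) ^ k) ^ 2)
    atTop (𝓝 0) →
  Tendsto (fun k : ℕ => NT ((1 + η) ^ k) a b c d A / ((1 + η) ^ k) ^ 2) atTop
    (𝓝 ((b - a) * (d - c) * cQ A))

/-- Almost every form, geometric sequences (uses ADW AEH AEB PTW). Proof: `WP lam del1 T` and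
`WM lam del1 T` are admissible for every `T = (1+η)^k ≥ 1` (ADW). The
countably many statements AEH for `e = 1/(j+1)`, `p = sc e g` (`ae_all_iff`), and AEB; then PTW for
`A ∈ KM M` (`ae_restrict_mem measurableSet_KM`). -/
def SEQStmt : Prop := ∀ lam del1 del : ℝ, 0 < lam → 0 < del1 → 0 < del → lam + del1 < 1 →
  HardAt lam del1 del → ∀ M : ℝ, 1 ≤ M → ∀ η a b c d : ℝ, 0 < η → a < b → c < d →
  ∀ᵐ A ∂(volume.restrict (KM M)),
    Tendsto (fun k : ℕ => NT ((1 + η) ^ k) a b c d A / ((1 + η) ^ k) ^ 2) atTop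
      (𝓝 ((b - a) * (d - c) * cQ A))

/-- From geometric sequences to real `T`. Proof: for `T ≥ 1` and `q = 1 + 1/(m+1)` let
`k = ⌊log T / log q⌋`, `q^k ≤ T < q^(k+1)`; then
`q⁻² f (q^k)/(q^k)² ≤ f T / T² ≤ q² f (q^(k+1))/(q^(k+1))²` (`f ≥ 0` monotone). So limsup `≤ q² ℓ`,
liminf `≥ q⁻² ℓ`; let `m → ∞`. -/
def MOTStmt : Prop := ∀ (f : ℝ → ℝ) (l : ℝ), (∀ t, 0 ≤ f t) → (∀ t t', 0 ≤ t → t ≤ t' → f t ≤ f t') →
  0 ≤ l → (∀ m : ℕ, Tendsto (fun k : ℕ => f ((1 + 1 / ((m : ℝ) + 1)) ^ k) /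
    ((1 + 1 / ((m : ℝ) + 1)) ^ k) ^ 2) atTop (𝓝 l)) →
  Tendsto (fun T : ℝ => f T / T ^ 2) atTop (𝓝 l)

/-- Monotonicity. Proof: `trip T ⊆ trip T'` (`ball_mono`), and `wnd` is monotone in the window. -/
def NTMStmt : Prop :=
  (∀ (T T' a b c d : ℝ) (A : ℝ × ℝ × ℝ), 0 ≤ T → T ≤ T' → NT T a b c d A ≤ NT T' a b c d A) ∧
  (∀ (T a b c d a' b' c' d' : ℝ) (A : ℝ × ℝ × ℝ), a' ≤ a → b ≤ b' → c' ≤ c → d ≤ d' →
    NT T a b c d A ≤ NT T a' b' c' d' A)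

/-- From rational to real windows (uses NTM). Proof: choose rational `a' ≤ a < b ≤ b'` etc. from
outside and from inside, with `|(b'-a')(d'-c') - (b-a)(d-c)| κ ≤ ε` (density of the rationals and
continuity of the product). -/
def WRRStmt : Prop := ∀ (A : ℝ × ℝ × ℝ) (κ : ℝ), 0 ≤ κ →
  (∀ a b c d : ℚ, a < b → c < d → Tendsto (fun T : ℝ => NT T a b c d A / T ^ 2) atTop
    (𝓝 (((b : ℝ) - a) * ((d : ℝ) - c) * κ))) →
  ∀ a b c d : ℝ, a < b → c < d →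
    Tendsto (fun T : ℝ => NT T a b c d A / T ^ 2) atTop (𝓝 ((b - a) * (d - c) * κ))

/-- Almost every form in `KM M` (uses SEQ MOT NTM WRR; `Assembly.cQpos`). Proof: countably many
statements SEQ (`η = 1/(m+1)`, rational windows), MOT for `f = fun T => NT T a b c d A` (`NT_nonneg`,
NTM), WRR. -/
def AECStmt : Prop := ∀ lam del1 del : ℝ, 0 < lam → 0 < del1 → 0 < del → lam + del1 < 1 →
  HardAt lam del1 del → ∀ M : ℝ, 1 ≤ M → ∀ᵐ A ∂(volume.restrict (KM M)),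
    ∀ a b c d : ℝ, a < b → c < d →
      Tendsto (fun T : ℝ => NT T a b c d A / T ^ 2) atTop (𝓝 ((b - a) * (d - c) * cQ A))

/-- The theorem from the hard half (uses AEC; `Pool.Agent.BTL.Cover.main_cover : S_cover`, `Assembly.cQpos`).
Proof: for every natural `M ≥ 1`, AEC gives: for a.e. `A`, `A ∈ KM M` implies the limit (`ae_restrict_iff'`);
countable intersection over `M`; every positive definite `A` is in `KM M` for a real `M ≥ 1` (S_cover),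
hence for `⌈M⌉₊` (`KM_mono`). Divide by `cQ A > 0`. -/
def FINStmt : Prop := HARDStmt → ∀ᵐ A : ℝ × ℝ × ℝ ∂(volume : Measure (ℝ × ℝ × ℝ)), 0 < A.1 → 0 < disc A →
  ∀ a b c d : ℝ, a < b → c < d →
    Tendsto (fun T : ℝ => NT T a b c d A / (cQ A * T ^ 2)) atTop (𝓝 ((b - a) * (d - c)))

end Pool.Agent.F5S
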