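import Pool.Agent.F5S.Stmts
import Pool.Agent.BTL.Glue

/-!
MP_f5cbfa_nt, squad F5S: the frozen statement S18989 from `FINStmt` and `HARDStmt`.
-/

set_option autoImplicit false

open MeasureTheory Filter Topology

namespace Pool.Agent.F5S

open Pool.Agent.BTL

theorem top (hF : FINStmt) (hH : HARDStmt) :
    ∀ᵐ v : ℝ × ℝ × ℝ ∂(volume : Measure (ℝ × ℝ × ℝ)),
      0 < v.1 → 0 < v.1 * v.2.2 - v.2.1 ^ 2 →
      ∀ q : ℝ × ℝ → ℝ,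
      (∀ z : ℝ × ℝ, q z = v.1 * z.1 ^ 2 + 2 * v.2.1 * z.1 * z.2 + v.2.2 * z.2 ^ 2) →
      ∀ Q : ℤ × ℤ → ℝ, (∀ x : ℤ × ℤ, Q x = q ((x.1 : ℝ), (x.2 : ℝ))) →
      ∀ n : ℤ × ℤ → ℝ, (∀ x : ℤ × ℤ, n x = (x.1 : ℝ) ^ 2 + (x.2 : ℝ) ^ 2) →
      ∀ a b c d : ℝ, a < b → c < d →
        Filter.Tendsto
          (fun T : ℝ =>
            ((Set.ncard {t : (ℤ × ℤ) × (ℤ × ℤ) × (ℤ × ℤ) |
                t.1 ≠ t.2.1 ∧ t.1 ≠ -t.2.1 ∧ t.1 ≠ t.2.2 ∧ t.1 ≠ -t.2.2 ∧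
                t.2.1 ≠ t.2.2 ∧ t.2.1 ≠ -t.2.2 ∧
                n t.1 < T ^ 2 ∧ n t.2.1 < T ^ 2 ∧ n t.2.2 < T ^ 2 ∧
                a < Q t.1 - Q t.2.1 ∧ Q t.1 - Q t.2.1 < b ∧
                c < Q t.2.1 - Q t.2.2 ∧ Q t.2.1 - Q t.2.2 < d} : ℕ) : ℝ) /
              ((∫ y in {y : ℝ × ℝ | y.1 ^ 2 + y.2 ^ 2 < 1},
                  (deriv (fun s : ℝ =>
                      (volume {z : ℝ × ℝ | z.1 ^ 2 + z.2 ^ 2 < 1 ∧ q z < s}).toReal)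
                    (q y)) ^ 2) * T ^ 2))
          Filter.atTop (nhds ((b - a) * (d - c))) := by
  filter_upwards [hF hH] with v hv h1 h2 q hq Q hQ n hn a b c d hab hcd
  have hq' : q = qf v := by
    funext z; rw [hq z]; rfl
  have hQ' : Q = qz v := by
    funext x; rw [hQ x, hq']; rfl
  have hn' : n = fun x : ℤ × ℤ => (x.1 : ℝ) ^ 2 + (x.2 : ℝ) ^ 2 := funext hn
  subst hq' hQ' hn'
  have key := hv h1 h2 a b c d hab hcd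
  refine key.congr' ?_
  filter_upwards [eventually_ge_atTop (0 : ℝ)] with T hT
  have e1 := Pool.Agent.BTL.Glue.NT_eq_ncard v a b c d T hT
  rw [← e1]
  rfl

end Pool.Agent.F5S
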